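import Pool.Agent.U492.GP.Main
import Pool.Agent.U492.GP.Group

/-!
# The powers `n ^ π`, `n ^ e` and the fields of approximable numbers

Let `q_0, q_1, …` be a sequence of integers `≥ 2`, and let `tower h` be the `h`-fold iterate of
`n ↦ 2 ^ n`. A complex number is *approximable* if, for some `h` and every `κ`, for all large `k` it
has an algebraic approximation of degree at most `tower h (q_k)`, with a polynomial over `ℤ` with
coefficients of absolute value at most `tower h (q_k)`, and with an error of at most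
`1 / tower κ (q_k)`; a real number is *rationally approximable* if the approximations can be chosen
in `ℚ`, with denominators at most `tower h (q_k)`. The approximable numbers form an algebraically
closed field `K`, the rationally approximable real numbers a field `R ⊆ K` (starting file
`MP_9cd479_nt.PowerClosedFields`). If `q` is constant then `K` is the field of algebraic numbers; for
a suitable explicit `q` the field `K` has transcendence degree the cardinality of the continuum, and it
contains all powers `a ^ x`, `a` in `K`, `x` in the uncountable field `R` (`Large`).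

A number `t` is *never approximable* if it is in none of the fields `K`. This is true for `π`, `e`,
`e ^ a` (`a ≠ 0` algebraic), nonzero logarithms of algebraic numbers, `a ^ b` (`a` algebraic,
`log a ≠ 0`, `b` algebraic and irrational), and for each `t` such that one of these numbers is algebraic
over `ℚ(t)`.

The theorem. Let `K` be the field of any sequence `q`, and let `t` be never approximable, for
instance `t = π` or `t = e`.

1. If `a_1, a_2, a_3` are algebraic numbers whose logarithms are linearly independent over `ℚ`, then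
   one of the numbers `a_i ^ t` is not in `K`. For real `t`, at most `(log₂ N + 1) ^ 2` of the
   positive integers `n ≤ N` are such that `n ^ t` is in `K`; so this holds for `n ^ π` and `n ^ e`.
2. Let `a_1`, `a_2` be algebraic with linearly independent logarithms. The polynomials `P` over `ℚ`
   for which `a_1 ^ P(t)` and `a_2 ^ P(t)` are both in `K` form a space of dimension at most two: of
   three linearly independent ones one does not have this property. The constants are in this space.
   So, for multiplicatively independent integers `m, n ≥ 1` and polynomials `P, Q` such that `1, P, Q`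
   are linearly independent over `ℚ`, one of the four numbers `m ^ P(t)`, `n ^ P(t)`, `m ^ Q(t)`,
   `n ^ Q(t)` is not in `K`.

The question is whether `n ^ π` or `n ^ e` is rational for some `n ≥ 2`; here the rational numbers are
replaced by the numbers in `K`. The proof: the six exponentials theorem holds for the field `K`
(Schneider's method, uniform in all parameters), if the three numbers of the longer side satisfy a
lower bound for their integral combinations (library `Pool.Agent.R347.SX` of the starting files, where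
it was not handed in); the logarithms of algebraic numbers, and the values of polynomials at a number
which is never approximable, satisfy it. For the algebraic numbers instead of `K` see
`MP_ee2255_nt.ExponentClasses`, which is stronger in this case.
-/

set_option autoImplicit false

namespace Pool.Agent.Results.MP_ee2255_nt.ApproximableFields

open Complex Polynomial Pool.Agent.N625.AP Pool.Agent.U492.GP

/-- Examples of numbers which are never approximable. -/
structure Examples : Prop where
  pi : NeverApproximable (Real.pi : ℝ)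
  e : NeverApproximable (Real.exp 1 : ℝ)
  exp : ∀ a : ℂ, a ≠ 0 → IsAlgebraic ℚ a → NeverApproximable (exp a)
  log : ∀ l : ℂ, l ≠ 0 → IsAlgebraic ℚ (Complex.exp l) → NeverApproximable l
  power : ∀ l b : ℂ, l ≠ 0 → IsAlgebraic ℚ (Complex.exp l) → IsAlgebraic ℚ b → (∀ r : ℚ, b ≠ r) →
    NeverApproximable (Complex.exp (b * l))
  closed : ∀ t u : ℂ, NeverApproximable u → IsAlgebraic (IntermediateField.adjoin ℚ {t}) u →
    NeverApproximable t

/-- The statements of the theorem for the field `K`. -/
structure Good (K : IntermediateField ℚ ℂ) : Prop where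
  three : ∀ t : ℂ, NeverApproximable t → ∀ l : Fin 3 → ℂ, (∀ i, IsAlgebraic ℚ (exp (l i))) →
    (∀ c : Fin 3 → ℤ, ∑ i, (c i : ℂ) * l i = 0 → c = 0) → ∃ i, exp (t * l i) ∉ K
  count : ∀ t : ℝ, NeverApproximable t → ∀ N : ℕ,
    ({n : ℕ | n ≠ 0 ∧ (((n : ℝ) ^ t : ℝ) : ℂ) ∈ K} ∩ Set.Iic N).ncard ≤ (Nat.log 2 N + 1) ^ 2
  count_pi_e : ∀ N : ℕ,
    ({n : ℕ | n ≠ 0 ∧ (((n : ℝ) ^ Real.pi : ℝ) : ℂ) ∈ K} ∩ Set.Iic N).ncard ≤
      (Nat.log 2 N + 1) ^ 2 ∧
    ({n : ℕ | n ≠ 0 ∧ (((n : ℝ) ^ Real.exp 1 : ℝ) : ℂ) ∈ K} ∩ Set.Iic N).ncard ≤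
      (Nat.log 2 N + 1) ^ 2
  polynomials : ∀ t : ℂ, NeverApproximable t → ∀ l : Fin 2 → ℂ, (∀ i, IsAlgebraic ℚ (exp (l i))) →
    (∀ c : Fin 2 → ℤ, ∑ i, (c i : ℂ) * l i = 0 → c = 0) →
    ∀ P : Fin 3 → ℚ[X], LinearIndependent ℚ P → ∃ i m, exp (aeval t (P i) * l m) ∉ K
  four : ∀ t : ℝ, NeverApproximable t → ∀ m n : ℕ, 0 < m → 0 < n →
    (∀ a b : ℤ, (m : ℝ) ^ a * (n : ℝ) ^ b = 1 → a = 0 ∧ b = 0) →
    ∀ P Q : ℚ[X], LinearIndependent ℚ ![1, P, Q] →
      ¬ ((((m : ℝ) ^ aeval t P : ℝ) : ℂ) ∈ K ∧ (((n : ℝ) ^ aeval t P : ℝ) : ℂ) ∈ K ∧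
        (((m : ℝ) ^ aeval t Q : ℝ) : ℂ) ∈ K ∧ (((n : ℝ) ^ aeval t Q : ℝ) : ℂ) ∈ K)

theorem never_e : NeverApproximable (Real.exp 1 : ℝ) := by
  rw [never_iff]
  have h := Pool.Agent.R347.SX.far_e
  rwa [show exp 1 = ((Real.exp 1 : ℝ) : ℂ) by push_cast; rfl] at h

theorem never_pi : NeverApproximable (Real.pi : ℝ) :=
  never_iff.2 Pool.Agent.R347.SX.far_pi

theorem examples : Examples where
  pi := never_pi
  e := never_e
  exp _ ha h := never_iff.2 (far_exp ha h)
  log _ hl h := never_iff.2 (far_log hl h)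
  power _ _ hl h hb hr := never_iff.2 (far_pow hl h hb hr)
  closed _ _ hu h := never_iff.2 (far_of_algebraic (never_iff.1 hu) h)

theorem power_eq {x : ℝ} (hx : 0 < x) (y : ℝ) :
    ((x ^ y : ℝ) : ℂ) = exp ((y : ℝ) * (Real.log x : ℝ)) := by
  rw [Real.rpow_def_of_pos hx]
  push_cast
  rw [mul_comm]

theorem alg_nat {n : ℕ} (hn : 0 < n) : IsAlgebraic ℚ (exp ((Real.log n : ℝ) : ℂ)) := by
  rw [← ofReal_exp, Real.exp_log (by exact_mod_cast hn)]
  have h := isAlgebraic_algebraMap (R := ℚ) (A := ℂ) (n : ℚ)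
  simpa using h

theorem good {q : ℕ → ℕ} (hq : ∀ k, 2 ≤ q k) {K : IntermediateField ℚ ℂ}
    {R : IntermediateField ℚ ℝ} (h : Fields q K R) : Good K := by
  have hK : ∀ z, z ∈ K ↔ Pool.Agent.R347.LW.Appr q z := fun z =>
    (h.mem_K z).trans (approximable_iff q z)
  have hthree : ∀ t : ℂ, NeverApproximable t → ∀ l : Fin 3 → ℂ,
      (∀ i, IsAlgebraic ℚ (exp (l i))) →
      (∀ c : Fin 3 → ℤ, ∑ i, (c i : ℂ) * l i = 0 → c = 0) → ∃ i, exp (t * l i) ∉ K := by
    intro t ht l ha hl
    by_contra hcon
    push Not at hcon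
    obtain ⟨x, hx, htx⟩ := Pool.Agent.R347.SX.six_alg hq t l ha hl fun i => (hK _).1 (hcon i)
    refine never_iff.1 ht q hq ?_
    rw [htx]
    exact hx.appr hq
  have hpoly : ∀ t : ℂ, NeverApproximable t → ∀ l : Fin 2 → ℂ,
      (∀ i, IsAlgebraic ℚ (exp (l i))) →
      (∀ c : Fin 2 → ℤ, ∑ i, (c i : ℂ) * l i = 0 → c = 0) →
      ∀ P : Fin 3 → ℚ[X], LinearIndependent ℚ P → ∃ i m, exp (aeval t (P i) * l m) ∉ K := by
    intro t ht l ha hl P hP
    by_contra hcon
    push Not at hcon
    have h0 : l 0 ≠ 0 := by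
      intro h0
      have := hl ![1, 0] (by rw [Fin.sum_univ_two]; simp [h0])
      have := congrFun this 0
      simp at this
    refine Pool.Agent.R347.SX.ratio_notR hq l (Pool.Agent.R347.SX.low_of_alg hq l ha hl) h0
      (grid hq (never_iff.1 ht) h0 P hP (l 1 / l 0) (fun i => ?_) fun i => ?_)
    · have := (hK _).1 (hcon i 0)
      rwa [mul_comm] at this
    · have := (hK _).1 (hcon i 1)
      have e : l 1 / l 0 * (l 0 * aeval t (P i)) = aeval t (P i) * l 1 := by field_simp
      rwa [e]
  have hcount : ∀ t : ℝ, NeverApproximable t → ∀ N : ℕ,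
      ({n : ℕ | n ≠ 0 ∧ (((n : ℝ) ^ t : ℝ) : ℂ) ∈ K} ∩ Set.Iic N).ncard ≤
        (Nat.log 2 N + 1) ^ 2 := by
    intro t ht N
    refine card_le_log (fun n hn => hn.1) (fun f hf => ?_) N
    by_contra hcon
    push Not at hcon
    obtain ⟨i, hi⟩ := hthree t ht (fun i => ((Real.log (f i) : ℝ) : ℂ))
      (fun i => alg_nat (Nat.pos_of_ne_zero (hf i).1)) (fun c hc => by
        by_contra hc0
        obtain ⟨p, hp⟩ := hcon (fun i => (c i : ℚ)) (fun h0 => hc0 (funext fun i => by
          have h7 : ((c i : ℤ) : ℚ) = 0 := congrFun h0 i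
          exact_mod_cast h7))
        refine hp (rel_of_log f (fun i => (hf i).1) c ?_ p)
        exact_mod_cast hc)
    apply hi
    have h1 := (hf i).2
    rwa [power_eq (by exact_mod_cast Nat.pos_of_ne_zero (hf i).1)] at h1
  refine ⟨hthree, hcount, fun N => ⟨hcount _ never_pi N, hcount _ never_e N⟩, hpoly,
    fun t ht m n hm hn hmn P Q hPQ hcon => ?_⟩
  obtain ⟨h1, h2, h3, h4⟩ := hcon
  have hm' : (0 : ℝ) < m := by exact_mod_cast hm
  have hn' : (0 : ℝ) < n := by exact_mod_cast hn
  obtain ⟨i, j, hij⟩ := hpoly t ht ![((Real.log m : ℝ) : ℂ), ((Real.log n : ℝ) : ℂ)] (by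
      intro i
      fin_cases i
      · exact alg_nat hm
      · exact alg_nat hn) (by
      intro c hc
      rw [Fin.sum_univ_two] at hc
      simp only [Matrix.cons_val_zero, Matrix.cons_val_one] at hc
      have h5 : (c 0 : ℝ) * Real.log m + (c 1 : ℝ) * Real.log n = 0 := by exact_mod_cast hc
      have h6 := hmn (c 0) (c 1) (by
        apply Real.log_injOn_pos (Set.mem_Ioi.2 (by positivity)) (Set.mem_Ioi.2 one_pos)
        rw [Real.log_one, Real.log_mul (zpow_ne_zero _ hm'.ne') (zpow_ne_zero _ hn'.ne'),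
          Real.log_zpow, Real.log_zpow]
        exact h5)
      funext i
      fin_cases i
      · exact h6.1
      · exact h6.2) _ hPQ
  have hreal : ∀ (F : ℚ[X]), aeval (t : ℂ) F = ((aeval t F : ℝ) : ℂ) := by
    intro F
    have := (Polynomial.aeval_algebraMap_apply ℂ t F)
    exact this
  apply hij
  fin_cases i
  · -- the constant polynomial
    have e1 : aeval (t : ℂ) ((![1, P, Q] : Fin 3 → ℚ[X]) 0) = 1 := by simp
    have h5 : ∀ k : ℕ, 0 < k → exp ((1 : ℂ) * ((Real.log k : ℝ) : ℂ)) ∈ K := by
      intro k hk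
      rw [one_mul, ← ofReal_exp, Real.exp_log (by exact_mod_cast hk)]
      have := K.algebraMap_mem (k : ℚ)
      simp
    fin_cases j
    · change exp (aeval (t : ℂ) ((![1, P, Q] : Fin 3 → ℚ[X]) 0) * ((Real.log m : ℝ) : ℂ)) ∈ K
      rw [e1]
      exact h5 m hm
    · change exp (aeval (t : ℂ) ((![1, P, Q] : Fin 3 → ℚ[X]) 0) * ((Real.log n : ℝ) : ℂ)) ∈ K
      rw [e1]
      exact h5 n hn
  · fin_cases j
    · change exp (aeval (t : ℂ) P * ((Real.log m : ℝ) : ℂ)) ∈ K
      rwa [hreal, ← power_eq hm']
    · change exp (aeval (t : ℂ) P * ((Real.log n : ℝ) : ℂ)) ∈ K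
      rwa [hreal, ← power_eq hn']
  · fin_cases j
    · change exp (aeval (t : ℂ) Q * ((Real.log m : ℝ) : ℂ)) ∈ K
      rwa [hreal, ← power_eq hm']
    · change exp (aeval (t : ℂ) Q * ((Real.log n : ℝ) : ℂ)) ∈ K
      rwa [hreal, ← power_eq hn']

/-- **Main result.** -/
theorem result : Large ∧ Examples ∧ ∀ q : ℕ → ℕ, (∀ k, 2 ≤ q k) →
    ∀ (K : IntermediateField ℚ ℂ) (R : IntermediateField ℚ ℝ), Fields q K R → Good K :=
  ⟨large, examples, fun _ hq _ _ h => good hq h⟩

end Pool.Agent.Results.MP_ee2255_nt.ApproximableFields
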